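import Pool.Agent.Lib.MP_688fd0_co.SQ3.H23.FinalDefs
import Pool.Agent.Lib.MP_688fd0_co.SQ2.H41.Den

/-!
Two lemmas on the small prime factors of an integer: the second moment of the sum of `log p` over the
prime divisors `p <= y`, and the smooth part against its radical.
-/

set_option autoImplicit false

namespace Pool.Agent.Lib.MP_688fd0_co.SQ5.H16

open Finset
open Pool.Agent.Lib.MP_688fd0_co.SQ2.H41
open Pool.Agent.Lib.MP_ba0fa5_ag.AA (primesIn)
open Pool.Agent.Lib.MP_688fd0_co.OSF.H38 (card_mult mem_primesIn)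

open Classical in
theorem card_rad (x y : ℕ) (R : ℝ) (hR : 0 < R) (hy : 1 ≤ y) :
    (((Ioc 0 x).filter fun n => R ≤ ∑ p ∈ (primesIn 0 y).filter (fun p => p ∣ n), Real.log p).card : ℝ) ≤
      x * ((∑ q ∈ primesIn 0 y, Real.log q / q) ^ 2 +
        Real.log y * ∑ q ∈ primesIn 0 y, Real.log q / q) / R ^ 2 := by
  set P := primesIn 0 y with hP
  have hw0 : ∀ p : ℕ, 0 ≤ Real.log p := fun p => Real.log_natCast_nonneg p
  have hx0 : (0 : ℝ) ≤ x := Nat.cast_nonneg x
  rw [le_div_iff₀ (by positivity)]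
  -- Chebyshev
  have h1 : ((((Ioc 0 x).filter fun n => R ≤ ∑ p ∈ P.filter (fun p => p ∣ n), Real.log p).card : ℝ)) *
      R ^ 2 ≤ ∑ n ∈ Ioc 0 x, (∑ p ∈ P.filter (fun p => p ∣ n), Real.log p) ^ 2 := by
    rw [← nsmul_eq_mul]
    refine (Finset.card_nsmul_le_sum _
      (fun n => (∑ p ∈ P.filter (fun p => p ∣ n), Real.log p) ^ 2) _ ?_).trans ?_
    · intro n hn
      rw [mem_filter] at hn
      exact pow_le_pow_left₀ hR.le hn.2 2
    · exact Finset.sum_le_sum_of_subset_of_nonneg (Finset.filter_subset _ _)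
        fun n _ _ => sq_nonneg _
  refine h1.trans ?_
  -- expansion of the square
  have h2 : ∑ n ∈ Ioc 0 x, (∑ p ∈ P.filter (fun p => p ∣ n), Real.log p) ^ 2 =
      ∑ p ∈ P, ∑ q ∈ P, Real.log p * Real.log q *
        (((Ioc 0 x).filter fun n => p ∣ n ∧ q ∣ n).card : ℝ) := by
    have e1 : ∀ n ∈ Ioc 0 x, (∑ p ∈ P.filter (fun p => p ∣ n), Real.log p) ^ 2 =
        ∑ p ∈ P, ∑ q ∈ P, Real.log p * Real.log q * (if p ∣ n ∧ q ∣ n then (1 : ℝ) else 0) := by
      intro n _
      rw [sq, Finset.sum_filter, Finset.sum_mul_sum]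
      refine Finset.sum_congr rfl fun p _ => Finset.sum_congr rfl fun q _ => ?_
      by_cases hp : p ∣ n
      · by_cases hq : q ∣ n
        · simp [hp, hq]
        · simp [hp, hq]
      · simp [hp]
    rw [Finset.sum_congr rfl e1, Finset.sum_comm]
    refine Finset.sum_congr rfl fun p _ => ?_
    rw [Finset.sum_comm]
    refine Finset.sum_congr rfl fun q _ => ?_
    rw [← Finset.mul_sum, Finset.sum_boole]
  rw [h2]
  -- the bound of one term
  have h3 : ∀ p ∈ P, ∀ q ∈ P, Real.log p * Real.log q *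
      (((Ioc 0 x).filter fun n => p ∣ n ∧ q ∣ n).card : ℝ) ≤
      x * ((Real.log p / p) * (Real.log q / q)) +
        (if p = q then x * (Real.log y * (Real.log p / p)) else 0) := by
    intro p hp q hq
    have hpp := (mem_primesIn.1 hp).2
    have hqp := (mem_primesIn.1 hq).2
    have hpy := (mem_primesIn.1 hp).1.2
    have hp0 : (0 : ℝ) < p := by exact_mod_cast hpp.pos
    have hq0 : (0 : ℝ) < q := by exact_mod_cast hqp.pos
    have hlp := hw0 p
    have hlq := hw0 q
    by_cases hpq : p = q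
    · subst hpq
      have e2 : ((Ioc 0 x).filter fun n => p ∣ n ∧ p ∣ n) = (Ioc 0 x).filter fun n => p ∣ n := by
        ext n; simp
      rw [e2, if_pos rfl]
      have h4 := card_mult x p
      have h5 : Real.log p ≤ Real.log y := Real.log_le_log hp0 (by exact_mod_cast hpy)
      have h6 : 0 ≤ (x : ℝ) * (Real.log p / p * (Real.log p / p)) := by positivity
      have h7 : Real.log p * Real.log p * (((Ioc 0 x).filter fun n => p ∣ n).card : ℝ) ≤
          Real.log p * Real.log y * (x / p) := by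
        refine mul_le_mul (mul_le_mul_of_nonneg_left h5 hlp) h4 (by positivity) ?_
        exact mul_nonneg hlp (hlp.trans h5)
      calc _ ≤ Real.log p * Real.log y * (x / p) := h7
        _ = x * (Real.log y * (Real.log p / p)) := by ring
        _ ≤ _ := by linarith
    · rw [if_neg hpq, add_zero]
      have hcop : Nat.Coprime p q := (Nat.coprime_primes hpp hqp).2 hpq
      have e2 : ((Ioc 0 x).filter fun n => p ∣ n ∧ q ∣ n) = (Ioc 0 x).filter fun n => p * q ∣ n := by
        ext n
        rw [mem_filter, mem_filter]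
        constructor
        · rintro ⟨a, b, c⟩
          exact ⟨a, hcop.mul_dvd_of_dvd_of_dvd b c⟩
        · rintro ⟨a, b⟩
          exact ⟨a, (Dvd.intro q rfl).trans b, (Dvd.intro_left p rfl).trans b⟩
      rw [e2]
      have h4 := card_mult x (p * q)
      calc Real.log p * Real.log q * (((Ioc 0 x).filter fun n => p * q ∣ n).card : ℝ) ≤
          Real.log p * Real.log q * (x / ((p * q : ℕ) : ℝ)) :=
            mul_le_mul_of_nonneg_left h4 (mul_nonneg hlp hlq)
        _ = x * ((Real.log p / p) * (Real.log q / q)) := by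
            push_cast
            field_simp
  refine (Finset.sum_le_sum fun p hp => Finset.sum_le_sum fun q hq => h3 p hp q hq).trans_eq ?_
  have h4 : ∀ p ∈ P, ∑ q ∈ P, (x * ((Real.log p / p) * (Real.log q / q)) +
        (if p = q then x * (Real.log y * (Real.log p / p)) else 0)) =
      x * ((Real.log p / p) * ∑ q ∈ P, Real.log q / q) + x * (Real.log y * (Real.log p / p)) := by
    intro p hp
    rw [Finset.sum_add_distrib, Finset.sum_ite_eq, if_pos hp, Finset.mul_sum, Finset.mul_sum]
  rw [Finset.sum_congr rfl h4, Finset.sum_add_distrib, ← Finset.mul_sum, ← Finset.mul_sum,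
    ← Finset.sum_mul, ← Finset.mul_sum]
  ring

theorem Sm_le_rad (n y W : ℕ) (hn : n ≠ 0) (h : ∀ d, d ^ 2 ∣ n → d ≤ W) :
    Sm n y ≤ W ^ 2 * ∏ p ∈ n.primeFactors.filter (fun p => p ≤ y), p := by
  set F := n.primeFactors.filter (fun p => p ≤ y) with hF
  have hpos : ∀ p ∈ F, 0 < p := fun p hp =>
    (Nat.prime_of_mem_primeFactors (mem_filter.1 hp).1).pos
  set d : ℕ := ∏ p ∈ F, p ^ (n.factorization p / 2) with hd
  have h1 : d ^ 2 ∣ n := by
    have h2 : d ^ 2 ∣ Sm n y := by
      rw [hd, ← Finset.prod_pow]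
      unfold Sm
      refine Finset.prod_dvd_prod_of_dvd _ _ fun p _ => ?_
      rw [← pow_mul]
      exact pow_dvd_pow p (by omega)
    exact h2.trans (Dvd.intro _ (Sm_mul_Ro hn y))
  have h2 : Sm n y ≤ d ^ 2 * ∏ p ∈ F, p := by
    rw [hd, ← Finset.prod_pow, ← Finset.prod_mul_distrib]
    unfold Sm
    refine Finset.prod_le_prod' fun p hp => ?_
    rw [← pow_mul, ← pow_succ]
    exact Nat.pow_le_pow_right (hpos p hp) (by omega)
  exact h2.trans (Nat.mul_le_mul_right _ (Nat.pow_le_pow_left (h d h1) 2))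

end Pool.Agent.Lib.MP_688fd0_co.SQ5.H16
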